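import Mathlib
import Pool.Agent.H17.SRef

namespace Pool.Agent.Results.MP_b5b962_gt.Neg

open Set Pool.Agent.H17.SRef

theorem result : ∃ (d : ℕ) (C : Set (Fin d → ℝ)), IsPolytope C ∧ ¬ IsSimplex C ∧
    ∃ (ι : Type) (_ : Fintype ι) (Df : Set (ι → ℝ)) (f : (ι → ℝ) → Fin d → ℝ)
      (Dg : Set (stdSimplex ℝ ι → ℝ)) (g : (stdSimplex ℝ ι → ℝ) → C → ℝ),
      Refines (stdSimplex ℝ ι) C Df f Dg g ∧
        ∃ a ∈ extremePoints ℝ C, ∃ b ∈ extremePoints ℝ C, a ≠ b ∧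
          ∃ k : ι, (∃ x ∈ Df, f x = a ∧ 0 < x k) ∧ ∃ y ∈ Df, f y = b ∧ 0 < y k := by
  obtain ⟨Dg, g, h⟩ := cub_refines
  exact ⟨4, Cub, cub_poly, cub_not, I8, inferInstance, D8, f8, Dg, g, h, _,
    vx_ext (i := 0) (j := 1) (by decide), _, vx_ext (i := 0) (j := 2) (by decide), vx_ne, .inl 0,
    ⟨_, pt_mem 0 1, f8_pt 0 1, by simp [pt]⟩, _, pt_mem 0 2, f8_pt 0 2, by simp [pt]⟩

end Pool.Agent.Results.MP_b5b962_gt.Neg
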